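import Mathlib

/-!
# A graph with three eigenvalues whose coherent closure is a strongly regular design

The graph has 156 vertices. The first 60 vertices are the pairs `(i, c)`, where `i` is one of the 15
duads of six symbols and `c` is one of four even sign patterns of length three; two of them are adjacent
if the duads are different. The other 96 vertices are the pairs `(u, s)`, where `u` lies in the
four-dimensional symplectic space over the field with two elements (even subsets of six symbols modulo
complements) and `s` is one of the six synthematic totals; they form a strongly regular graph with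
parameters `(96, 20, 4, 4)`. The three synthemes containing a duad `i` divide the six totals into three
pairs, and `(i, c)` is adjacent to `(u, s)` if the sign of `c` at the pair containing `s` times the value
at `u` of the character `i` is one. The adjacency matrix `A` satisfies `A ^ 2 = 4 A + 32 + a aᵀ`, where `a`
is constant on the two parts, and its eigenvalues are `80`, `8` and `-4`.
-/

set_option autoImplicit false
set_option maxRecDepth 100000

namespace Pool.Agent.Results.MP_5e375b_co.ThreeEigenvaluesSRD

/-- A coherent configuration on the finite set `V`: the basis relations are the sets of all pairs with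
the same colour. -/
structure CoherentConfiguration (V : Type) (I : Type) where
  /-- the colour of a pair, i.e. the index of its basis relation -/
  color : V → V → I
  /-- every basis relation is nonempty -/
  surj : ∀ i, ∃ x y, color x y = i
  /-- the diagonal is a union of basis relations -/
  diag : ∀ x y z, color x x = color y z → y = z
  /-- the transpose of a basis relation is a basis relation -/
  transpose : ∀ x y x' y', color x y = color x' y' → color y x = color y' x'
  /-- the number of `z` with `(x, z)` in the relation `i` and `(z, y)` in the relation `j` depends only on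
  the relation that contains `(x, y)` -/
  inter : ∀ x y x' y', color x y = color x' y' → ∀ i j,
    {z | color x z = i ∧ color z y = j}.ncard = {z | color x' z = i ∧ color z y' = j}.ncard

variable {V : Type}

/-- the edge set of the graph is a union of basis relations -/
def EdgeUnion {I : Type} (W : CoherentConfiguration V I) (G : SimpleGraph V) : Prop :=
  ∀ x y x' y', W.color x y = W.color x' y' → (G.Adj x y ↔ G.Adj x' y')

/-- `W` is the coherent closure of the graph `G`, the coarsest coherent configuration in which the edge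
set of `G` is a union of basis relations -/
def IsCoherentClosure {I : Type} (W : CoherentConfiguration V I) (G : SimpleGraph V) : Prop :=
  EdgeUnion W G ∧ ∀ (J : Type) (W' : CoherentConfiguration V J), EdgeUnion W' G →
    ∀ x y x' y', W'.color x y = W'.color x' y' → W.color x y = W.color x' y'

/-- the fibres of a coherent configuration -/
def fibres {I : Type} (W : CoherentConfiguration V I) : Set (Set V) :=
  {X | ∃ x, X = {y | W.color y y = W.color x x}}

/-- the number of basis relations contained in `X × Y`, for fibres `X` and `Y` -/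
noncomputable def relCount {I : Type} (W : CoherentConfiguration V I) (X Y : Set V) : ℕ :=
  {i | ∃ x ∈ X, ∃ y ∈ Y, W.color x y = i}.ncard

/-- a strongly regular design: a coherent configuration with exactly two fibres, three basis relations on
each of them and two basis relations from the first to the second -/
def IsStronglyRegularDesign {I : Type} (W : CoherentConfiguration V I) : Prop :=
  ∃ X Y : Set V, X ≠ Y ∧ fibres W = {X, Y} ∧ relCount W X X = 3 ∧ relCount W X Y = 2 ∧
    relCount W Y Y = 3

/-! ### natural number computations -/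

def allN : ℕ → (ℕ → Bool) → Bool
  | 0, _ => true
  | n + 1, p => allN n p && p n

def sumN : ℕ → (ℕ → ℕ) → ℕ
  | 0, _ => 0
  | n + 1, f => sumN n f + f n

theorem allN_spec {n : ℕ} {p : ℕ → Bool} (h : allN n p = true) : ∀ k < n, p k = true := by
  induction n with
  | zero => intro k hk; omega
  | succ n ih =>
    rw [allN, Bool.and_eq_true] at h
    intro k hk
    rcases Nat.lt_succ_iff_lt_or_eq.1 hk with h1 | h1
    · exact ih h.1 k h1
    · rw [h1]; exact h.2

theorem sumN_eq (n : ℕ) (f : ℕ → ℕ) : sumN n f = ∑ k ∈ Finset.range n, f k := by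
  induction n with
  | zero => rfl
  | succ n ih => rw [sumN, ih, Finset.sum_range_succ]

theorem sum_lt (B n : ℕ) (hB : 0 < B) (c : ℕ → ℕ) (hc : ∀ k < n, c k < B) :
    ∑ k ∈ Finset.range n, c k * B ^ k < B ^ n := by
  induction n with
  | zero => simp
  | succ n ih =>
    rw [Finset.sum_range_succ, pow_succ]
    have h1 := ih (fun k hk => hc k (by omega))
    have h2 := hc n (by omega)
    have h3 : c n * B ^ n ≤ (B - 1) * B ^ n := Nat.mul_le_mul_right _ (by omega)
    have h4 : (B - 1) * B ^ n + B ^ n = B ^ n * B := by
      obtain ⟨b, rfl⟩ : ∃ b, B = b + 1 := ⟨B - 1, by omega⟩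
      rw [Nat.add_sub_cancel]; ring
    omega

theorem digits_unique (B n : ℕ) (c d : ℕ → ℕ) (hc : ∀ k < n, c k < B) (hd : ∀ k < n, d k < B)
    (h : ∑ k ∈ Finset.range n, c k * B ^ k = ∑ k ∈ Finset.range n, d k * B ^ k) :
    ∀ k < n, c k = d k := by
  induction n with
  | zero => intro k hk; omega
  | succ n ih =>
    have hB : 0 < B := by have := hc 0 (by omega); omega
    rw [Finset.sum_range_succ, Finset.sum_range_succ] at h
    have h1 := sum_lt B n hB c (fun k hk => hc k (by omega))
    have h2 := sum_lt B n hB d (fun k hk => hd k (by omega))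
    have h3 : c n = d n := by
      by_contra hne
      rcases Nat.lt_or_gt_of_ne hne with h4 | h4
      · have : (c n + 1) * B ^ n ≤ d n * B ^ n := Nat.mul_le_mul_right _ h4
        rw [Nat.add_mul, one_mul] at this
        omega
      · have : (d n + 1) * B ^ n ≤ c n * B ^ n := Nat.mul_le_mul_right _ h4
        rw [Nat.add_mul, one_mul] at this
        omega
    intro k hk
    rcases Nat.lt_succ_iff_lt_or_eq.1 hk with h4 | h4
    · refine ih (fun k hk => hc k (by omega)) (fun k hk => hd k (by omega)) ?_ k h4
      rw [h3] at h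
      omega
    · rw [h4]; exact h3

/-! ### the graph -/

/-- the adjacency matrix, row by row -/
def BIG : ℕ := 0x7d004820210810108141010256c3a936659c3a6be01020442040880428200489ac3659ca9365c6dc40a08014200501040810909c65c39a695c36aec840109081080220804280136a9c356a53a9caf412101200414048102042205ca5695cc39a56cf828044080822204201084043a69a53ac3569ac41f201088204044042410084a9c3a9c96563c5682f08410110820208182020165c36563a9c9a361378020608104011040424026365c36569a3c9a23b0504024200a0208081060c9a9c3a9a5c563a07d408804041110420108808a3a569a3c365a9c0be120210082808810204110c569a5c5c3a965c0487d0108202081101102410a633a6396a93ca9102be02040440420880488206a336a93a639ac90a0dc44208011040500900816c95cc956653c65401ec8810090208802801042c659cc59aa356c5210f41041120810404220204ac556653cc95a63804f82082408420220404108ca99aa35cc596a320141f2040880420440844105933a6c66a6c35908482f10810108120220182095336a6ca6c65398021378100601044014020429395cc6a66ac39505023b4204022080a00600813959cca6aaca93540807d041804420110808108535566accc6a5931200be0822108108081102043599aacacca69532021087d004841010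2101081a6cc59396a6c359044204be01028200480880426acc9593a6c6539801420dc40a00810900501046c6a339566ac395090810ec8401042801802208c6a63359aaca935120041f41210204220404810acaa9953cc6a593408082f82804108404220420ca665535cca695308820441f20141008404404259cc59c66a93ca910110882f08482020120208195cc956ca639ac9060810137802042402401104936a336a6653c6540242023b0500810600a020839a633a6aa356c580404107d40810880811042053aa99accc95a632100820be120204110808810356655cacc596a31082020487d0102410081101563c56366563c56204044102be00488200420889a3c9a9ca9c9a364208010a0dc40900811040509c9a3c9a69a3c9a810090401ec880104220880236563c56a5c563a041120210f412202048104045c5a965cc365a9c082408804f824041084202203a965a3ac3a965c20408820141f084410042044a93c56c9659c3a610810108482f201820081202653c9a63a9365c6810060802137402042104401639a3c65695c36a42040205023b0600812080a0c9563ca9a53a9ca04180440807d808108420110a35a96a3c39a56c0822101200be110204810808c5965ac5c3569ac1010814101027d0048202108a6cca6c69593359088042820048be01020442046acc6a6c5939539050104081090dc40a08014206c6acc6a9953395802208042801ec8401090810c6a6cca655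35935404810204220f41210120041acaa66ac3395593220420108404f82804408082ca66aaca335995304404241008441f20108820459cca639956cca920208182020182f08410110895cc6a9359c6ac9401104042402137802060810936acc9599acc650a020808106023b05040242039a6cc5955ca6c511042010880807d40880404153aa6653336aa638088102041100be1202100823566aa3533a66a30811011024100487d0108202563ca9c99a9cc56042088048820102be02040449a3c65635636a361040500900810a0dc44208019c9ac365965cc9a208802801042401ec88100903656c3a95a3a63a810404220204210f410411205c5a69a33c9aa9c420220404108804f820824083a96a5c53c5665c04204408441020141f204088a93ca9369a633a608120220182008482f108101653c659c56c95c6104401402042802137810060639ac39a96a336a2080a006008105023b420402c956c3565ac59ca42011080810840807d041804a35a695c3c6556c8108081102041200be082210c596a53a3ca99ac4101021010812021087d004856c356c99a633a6820048088042044204be01029ac39a6356c95c6081090050104801420dc40a09c653c6596a336a042801802208090810ec840136a93ca95ac59ca204220404810120041f412105ca596a33c6556c108404220420408082f828043a695ac53ca99ac41008404404208820441f201a9c356369a9cc56820201202081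10110882f08465c39a9c5636a3604240240110406081013780263653c9a965cc9a0810600a020840242023b050c9a93c565a3a63a10880811042080404107d408a3a5965c3c9aa9c2041108088102100820be120c5695a3a3c5665c1024100811011082020487d0a63359c6956cca9048820042088204044102be06a33956c59c6ac90900811040504208010a0dc46c95336a99acc65801042208802810090401ec8c65933a655ca6c5220204810404041120210f41ac5599ac336aa63404108420220082408804f82ca9955ca33a66a308441004204420408820141f59335939959335920182008120210810108482f9533959359395394020421044018100608021379395339599533950600812080a042040205023b39593359553593580810842011004180440807d5355995333955931102048108080822101200be3599553533599536279d89d86279d86276279d80ffffffffffffff89d76276289d76289d89d7620ffffffffffffff17ae85e8517ae8517a17ae850fffffffffffffffc003f03ffc003ffc0fc003f0ffffffffffffff6e46e46e46e46e46e46e46e4f0fffffffffffffb91b91b91b91b91b91b91b91f0fffffffffffffd4ad4ad4ad4ad4ad4ad4ad4af0fffffffffffff03f03f03f03f03f03f03f03ff0fffffffffffffdb6249db6249db6249db6249ff0ffffffffffffe79186e79186e79186e79186ff0ffffffffffff3cfc303cfc303cfc303cfc30ff0ff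ffffffffff000fff000fff000fff000fffff0ffffffffffff145145ebaebaebaeba145145fff0fffffffffff28a28ad75d75d75d7528a28afff0fffffffffffc30c303cf3cf3cf3cfc30c30fff0fffffffffffffffff000000000000fffffffff0fffffffffffb6db6d492492b6db6d492492ffff0ffffffffff79e79e86186179e79e861861ffff0ffffffffffcf3cf330c30ccf3cf330c30cffff0ffffffffff000000ffffff000000ffffffffff0ffffffffff8a275d8a275d75d8a275d8a2fffff0fffffffff451bae451baebae451bae451fffff0fffffffff30ccf330ccf3cf330ccf330cfffff0ffffffffffff000fff000000fff000ffffffff0fffffffff6276276276279d89d89d89d8ffffff0ffffffff1b91b91b91b9e46e46e46e46ffffff0ffffffff85e85e85e85e7a17a17a17a1ffffff0fffffffffc0fc0fc0fc003f03f03f03fffffff0ffffffff6e491b91b6e46e491b91b6e4fffffff0fffffffd89276276d89d89276276d89fffffff0fffffffb524ad4adb52b524ad4adb52fffffff0fffffff03ffc0fc003f03ffc0fc003ffffffff0fffffff5d75d75d75d7a28a28a28a28ffffffff0ffffffaebaebaebaeb514514514514ffffffff0fffffff3cf3cf3cf3c0c30c30c30c3ffffffff0ffffff000000000000ffffffffffffffffffff0ffffff6189e79e76186189e79e7618fffffffff0fffff9246db6db9249246db6db924fffffffff0fffff0c3f3cf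3c0c30c3f3cf3c0c3fffffffff0ffffffff000000ffffff000000ffffffffffff0fffff89d89d76276289d89d762762ffffffffff0ffff276276d89d89276276d89d89ffffffffff0ffff52b52bad4ad452b52bad4ad4ffffffffff0fffffc0fc003f03ffc0fc003f03fffffffffff0ffffb9146eb9146e46eb9146eb91fffffffffff0fffe461b9e461b91b9e461b9e46fffffffffff0fff5e8a175e8a17a175e8a175e8fffffffffff0fff03ffc003ffc0fc003ffc003ffffffffffff0fff17ae8517ae8517ae8517ae85ffffffffffff0ff4adb524adb524adb524adb52ffffffffffff0ffa175e8a175e8a175e8a175e8ffffffffffff0fffc003ffc003ffc003ffc003fffffffffffff0ffd4ad4a2b52b52b52b5d4ad4afffffffffffff0f7a17a185e85e85e85e7a17a1fffffffffffff0fad4ad452b52b52b52bad4ad4fffffffffffff0f03f03ffc0fc0fc0fc003f03ffffffffffffff0f3cfc30c303cfc303cf3cfc30ffffffffffffff0cf330c30ccf330ccf3cf330cffffffffffffff0f3c0c30c3f3c0c3f3cf3c0c3ffffffffffffff0000ffffff000fff000000fffffffffffffffff0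

def adjB (x y : ℕ) : Bool := Nat.testBit BIG (156 * x + y)

/-- the colour of a pair of vertices -/
def col (x y : ℕ) : ℕ :=
  if x < 60 then
    (if y < 60 then (if x = y then 0 else (if adjB x y then 1 else 2)) else (if adjB x y then 3 else 4))
  else
    (if y < 60 then (if adjB x y then 5 else 6) else (if x = y then 7 else (if adjB x y then 8 else 9)))

def Grow (z : ℕ) : ℕ := sumN 156 (fun y => 256 ^ col z y * (256 ^ 100) ^ y)

def Hk : ℕ → ℕ
  | 0 => 0x3000000000000000000000300000000000000000000000000300000000000000000000380000000000000000000001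
  | 1 => 0x1818000000000000000018180000000000000000000000000003000000000000000003340100000000000000000100
  | 2 => 0x1020000000000000000020100000000000000000000000000200010000000000000000380000000000000000010000
  | 3 => 0x28080000000000000000230c01000000000000000000000000020100000000000000001c1c00000000000000000001000000
  | 4 => 0x230c0100000000000000280800000000000000000000000000010200000000000000001c1c00000000000000000100000000
  | 5 => 0x28230000000000000000080c00000000000000000001000000000000000000000000021c0000000000000000011c010000000000000000000000000000000000000000000000000000000000000000000000000000000000000000000000000000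
  | 6 => 0x232800000000000000000c0800000000000000000100000000000000000000000000011c0100000000000000021c000000000000000000000000000000000000000000000000000000000000000000000000000000000000000000000000000000
  | 7 => 0x4b000000000000000000001400000000000000000000010000000000000000000000001e000000000000000000001e0000000000000000000000000000000000000000000000000000000000000000000000000000000000000000000000000000000000
  | 8 => 0x3c0f00000000000000000f040100000000000000000100000000000000000000000000120c00000000000000000c120000000000000000000000000000000000000000000000000000000000000000000000000000000000000000000000000000000000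
  | 9 => 0x3a100100000000000000100400000000000000000100000000000000000000000000000e100000000000000000100e0000000000000000000000000000000000000000000000000000000000000000000000000000000000000000000000000000000000
  | _ => 0

def chk : Bool :=
  allN 156 fun x => decide (sumN 156 (fun z => 256 ^ (10 * col x z) * Grow z) =
    sumN 156 (fun y => Hk (col x y) * (256 ^ 100) ^ y))

def chk2 : Bool := allN 10 fun k => decide (Hk k < 256 ^ 100)

def chk3 : Bool := allN 156 fun x => allN 156 fun y =>
  (adjB x y == adjB y x) && (!adjB x x) && decide (col x y < 10)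

theorem chk_true : chk = true := by decide +kernel
theorem chk2_true : chk2 = true := by decide +kernel
theorem chk3_true : chk3 = true := by decide +kernel

def Arow (z : ℕ) : ℕ := sumN 156 (fun y => (if adjB z y then 1 else 0) * 256 ^ y)

def be (x : ℕ) : ℕ := if x < 60 then 2 else 1

def E (x y : ℕ) : ℕ := (if adjB x y then 4 else 0) + (if x = y then 32 else 0) + 18 * (be x * be y)

def chk4 : Bool := allN 156 fun x => decide (sumN 156 (fun z => (if adjB x z then 1 else 0) * Arow z) =
  sumN 156 (fun y => E x y * 256 ^ y))

def sumZ : ℕ → (ℕ → ℤ) → ℤ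
  | 0, _ => 0
  | n + 1, f => sumZ n f + f n

theorem sumZ_eq (n : ℕ) (f : ℕ → ℤ) : sumZ n f = ∑ k ∈ Finset.range n, f k := by
  induction n with
  | zero => rfl
  | succ n ih => rw [sumZ, ih, Finset.sum_range_succ]

def eigChk (f : ℕ → ℤ) (m : ℤ) : Bool :=
  allN 156 fun x => decide (sumZ 156 (fun z => if adjB x z then f z else 0) = m * f x)

def f80 (x : ℕ) : ℤ := if x < 60 then 2 else 1
def f4 (x : ℕ) : ℤ := if x < 4 then 1 else (if x < 8 then -1 else 0)
def f8 (x : ℕ) : ℤ := if x = 0 then 4 else (if x = 1 then -4 else (if x < 60 then 0 else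
  (if adjB x 0 then 1 else 0) - (if adjB x 1 then 1 else 0)))

theorem chk4_true : chk4 = true := by decide +kernel
theorem e80 : eigChk f80 80 = true := by decide +kernel
theorem e8 : eigChk f8 8 = true := by decide +kernel
theorem e4 : eigChk f4 (-4) = true := by decide +kernel

/-! ### consequences of the computations -/

theorem adj_symm {x y : ℕ} (hx : x < 156) (hy : y < 156) : adjB x y = adjB y x := by
  have h := allN_spec (allN_spec chk3_true x hx) y hy
  simp only [Bool.and_eq_true, beq_iff_eq] at h
  exact h.1.1

theorem adj_irrefl {x : ℕ} (hx : x < 156) : adjB x x = false := by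
  have h := allN_spec (allN_spec chk3_true x hx) x hx
  simp only [Bool.and_eq_true, Bool.not_eq_true'] at h
  exact h.1.2

theorem col_lt (x y : ℕ) : col x y < 10 := by
  unfold col
  split_ifs <;> omega

theorem bnd {x : ℕ} (y : ℕ) :
    ∑ z ∈ Finset.range 156, 256 ^ (10 * col x z + col z y) < 256 ^ 100 := by
  calc ∑ z ∈ Finset.range 156, 256 ^ (10 * col x z + col z y)
      ≤ ∑ _z ∈ Finset.range 156, 256 ^ 99 := by
        refine Finset.sum_le_sum fun z _ => Nat.pow_le_pow_right (by norm_num) ?_
        have h1 := col_lt x z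
        have h2 := col_lt z y
        omega
    _ = 156 * 256 ^ 99 := by rw [Finset.sum_const, Finset.card_range, smul_eq_mul]
    _ < 256 * 256 ^ 99 := Nat.mul_lt_mul_of_pos_right (by norm_num) (by positivity)
    _ = 256 ^ 100 := by rw [← pow_succ']

theorem Hk_lt (k : ℕ) (hk : k < 10) : Hk k < 256 ^ 100 := by
  have h := allN_spec chk2_true k hk
  exact of_decide_eq_true h

theorem T_eq {x y : ℕ} (hx : x < 156) (hy : y < 156) :
    ∑ z ∈ Finset.range 156, 256 ^ (10 * col x z + col z y) = Hk (col x y) := by
  have h := of_decide_eq_true (allN_spec chk_true x hx)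
  rw [sumN_eq, sumN_eq] at h
  refine digits_unique (256 ^ 100) 156 (fun y => ∑ z ∈ Finset.range 156, 256 ^ (10 * col x z + col z y))
    (fun y => Hk (col x y)) (fun y _ => bnd y) (fun y _ => Hk_lt _ (col_lt x y)) ?_ y hy
  rw [← h]
  simp only [Finset.sum_mul]
  rw [Finset.sum_comm]
  refine Finset.sum_congr rfl fun z _ => ?_
  rw [Grow, sumN_eq, Finset.mul_sum]
  refine Finset.sum_congr rfl fun y _ => ?_
  rw [pow_add, mul_assoc]

/-- the number of `z` with given colours -/
def cnt (x y m : ℕ) : ℕ := ((Finset.range 156).filter fun z => 10 * col x z + col z y = m).card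

theorem cnt_sum (x y : ℕ) : ∑ z ∈ Finset.range 156, 256 ^ (10 * col x z + col z y) =
    ∑ m ∈ Finset.range 100, cnt x y m * 256 ^ m := by
  have hmaps : ∀ z ∈ Finset.range 156, 10 * col x z + col z y ∈ Finset.range 100 := by
    intro z _
    rw [Finset.mem_range]
    have h1 := col_lt x z
    have h2 := col_lt z y
    omega
  rw [← Finset.sum_fiberwise_of_maps_to hmaps]
  refine Finset.sum_congr rfl fun m _ => ?_
  rw [cnt, Finset.card_eq_sum_ones, Finset.sum_mul]
  refine Finset.sum_congr rfl fun z hz => ?_
  rw [(Finset.mem_filter.1 hz).2, one_mul]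

theorem cnt_eq {x y x' y' : ℕ} (hx : x < 156) (hy : y < 156) (hx' : x' < 156) (hy' : y' < 156)
    (h : col x y = col x' y') (m : ℕ) (hm : m < 100) : cnt x y m = cnt x' y' m := by
  have hb : ∀ a b m : ℕ, cnt a b m < 256 := by
    intro a b m
    refine lt_of_le_of_lt (Finset.card_filter_le _ _) ?_
    rw [Finset.card_range]
    norm_num
  refine digits_unique 256 100 (cnt x y) (cnt x' y') (fun m _ => hb _ _ m) (fun m _ => hb _ _ m) ?_ m hm
  rw [← cnt_sum, ← cnt_sum, T_eq hx hy, T_eq hx' hy', h]

theorem sq_eq {x y : ℕ} (hx : x < 156) (hy : y < 156) :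
    ∑ z ∈ Finset.range 156, (if adjB x z then 1 else 0) * (if adjB z y then 1 else 0) = E x y := by
  have h := of_decide_eq_true (allN_spec chk4_true x hx)
  rw [sumN_eq, sumN_eq] at h
  refine digits_unique 256 156
    (fun y => ∑ z ∈ Finset.range 156, (if adjB x z then 1 else 0) * (if adjB z y then 1 else 0))
    (fun y => E x y) (fun y _ => ?_) (fun y _ => ?_) ?_ y hy
  · refine lt_of_le_of_lt (Finset.sum_le_sum (g := fun _ => 1) fun z _ => ?_) ?_
    · split_ifs <;> norm_num
    · rw [Finset.sum_const, Finset.card_range]; norm_num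
  · unfold E be
    split_ifs <;> norm_num
  · rw [← h]
    simp only [Finset.sum_mul]
    rw [Finset.sum_comm]
    refine Finset.sum_congr rfl fun z _ => ?_
    rw [Arow, sumN_eq, Finset.mul_sum]
    refine Finset.sum_congr rfl fun y _ => ?_
    rw [mul_assoc]

/-! ### the graph and the configuration -/

/-- the graph on 156 vertices -/
def Gr : SimpleGraph (Fin 156) where
  Adj x y := adjB x y = true
  symm := ⟨fun x y h => by
    show adjB y x = true
    rw [adj_symm y.2 x.2]; exact h⟩
  loopless := ⟨fun x h => by
    have h1 := adj_irrefl x.2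
    have h2 : adjB x x = true := h
    rw [h1] at h2
    exact Bool.false_ne_true h2⟩

instance : DecidableRel Gr.Adj := fun x y => inferInstanceAs (Decidable (adjB x y = true))

theorem col_self_iff (x y : ℕ) : (col x y = 0 ∨ col x y = 7) ↔ x = y := by
  unfold col
  split_ifs <;> simp_all
  all_goals omega

theorem col_data (x y : ℕ) : (col x y < 5 ↔ x < 60) ∧ ((col x y < 3 ∨ col x y = 5 ∨ col x y = 6) ↔ y < 60) ∧
    ((col x y = 1 ∨ col x y = 3 ∨ col x y = 5 ∨ col x y = 8) ↔ (x ≠ y ∧ adjB x y = true)) := by
  unfold col
  split_ifs <;> simp_all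
  all_goals omega

/-- the colour is determined by the parts of the two vertices, equality and adjacency -/
theorem col_of {x y x' y' : ℕ} (h1 : x < 60 ↔ x' < 60) (h2 : y < 60 ↔ y' < 60) (h3 : x = y ↔ x' = y')
    (h4 : adjB x y = adjB x' y') : col x y = col x' y' := by
  unfold col
  simp only [h1, h2, h3, h4]

theorem adj_iff_of_col {x y x' y' : ℕ} (hx : x < 156) (hx' : x' < 156)
    (h : col x y = col x' y') : adjB x y = adjB x' y' := by
  obtain ⟨a1, a2, a3⟩ := col_data x y
  obtain ⟨b1, b2, b3⟩ := col_data x' y'
  rw [h] at a3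
  have h5 : (x ≠ y ∧ adjB x y = true) ↔ (x' ≠ y' ∧ adjB x' y' = true) := a3.symm.trans b3
  have e1 : ∀ {a b : ℕ}, a < 156 → adjB a b = true → a ≠ b := by
    intro a b ha hab hne
    rw [← hne, adj_irrefl ha] at hab
    exact Bool.false_ne_true hab
  rw [Bool.eq_iff_iff]
  exact ⟨fun h6 => (h5.1 ⟨e1 hx h6, h6⟩).2, fun h6 => (h5.2 ⟨e1 hx' h6, h6⟩).2⟩

theorem ncard_eq_cnt (x y : Fin 156) (i j : Fin 10) :
    {z : Fin 156 | (⟨col x z, col_lt _ _⟩ : Fin 10) = i ∧ (⟨col z y, col_lt _ _⟩ : Fin 10) = j}.ncard =
      cnt x y (10 * i + j) := by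
  rw [cnt]
  have h : (Finset.range 156).filter (fun z => 10 * col x z + col z y = 10 * (i : ℕ) + j) =
      ((Finset.univ : Finset (Fin 156)).filter (fun z : Fin 156 =>
        (⟨col x z, col_lt _ _⟩ : Fin 10) = i ∧ (⟨col z y, col_lt _ _⟩ : Fin 10) = j)).map
          Fin.valEmbedding := by
    ext z
    simp only [Finset.mem_filter, Finset.mem_range, Finset.mem_map, Finset.mem_univ, true_and,
      Fin.valEmbedding_apply]
    constructor
    · rintro ⟨h1, h2⟩
      have e1 := col_lt x z
      have e2 := col_lt z y
      have e3 := i.2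
      have e4 := j.2
      refine ⟨⟨z, h1⟩, ⟨Fin.ext ?_, Fin.ext ?_⟩, rfl⟩
      · show col x z = i
        omega
      · show col z y = j
        omega
    · rintro ⟨a, ⟨h1, h2⟩, rfl⟩
      refine ⟨a.2, ?_⟩
      rw [← h1, ← h2]
  rw [h, Finset.card_map, ← Set.ncard_coe_finset]
  congr 1
  ext z
  simp

/-- the coherent configuration -/
def Wc : CoherentConfiguration (Fin 156) (Fin 10) where
  color x y := ⟨col x y, col_lt _ _⟩
  surj := by
    intro i
    have h : ∀ i : Fin 10, ∃ p : Fin 156 × Fin 156, col p.1 p.2 = i := by
      intro i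
      fin_cases i
      · exact ⟨(0, 0), by decide +kernel⟩
      · exact ⟨(0, 4), by decide +kernel⟩
      · exact ⟨(0, 1), by decide +kernel⟩
      · exact ⟨(0, 60), by decide +kernel⟩
      · exact ⟨(0, 72), by decide +kernel⟩
      · exact ⟨(60, 0), by decide +kernel⟩
      · exact ⟨(60, 2), by decide +kernel⟩
      · exact ⟨(60, 60), by decide +kernel⟩
      · exact ⟨(60, 61), by decide +kernel⟩
      · exact ⟨(60, 66), by decide +kernel⟩
    obtain ⟨p, hp⟩ := h i
    exact ⟨p.1, p.2, Fin.ext hp⟩
  diag := by
    intro x y z h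
    have h1 : col x x = col y z := congrArg Fin.val h
    have h2 := (col_self_iff x x).2 rfl
    rw [h1] at h2
    exact Fin.ext ((col_self_iff y z).1 h2)
  transpose := by
    intro x y x' y' h
    have h1 : col x y = col x' y' := congrArg Fin.val h
    obtain ⟨a1, a2, a3⟩ := col_data x y
    obtain ⟨b1, b2, b3⟩ := col_data x' y'
    have h3 := col_self_iff x y
    have h4 := col_self_iff x' y'
    refine Fin.ext (col_of ?_ ?_ ?_ ?_)
    · rw [← a2, ← b2, h1]
    · rw [← a1, ← b1, h1]
    · rw [eq_comm, ← h3, h1, h4, eq_comm]
    · rw [adj_symm y.2 x.2, adj_symm y'.2 x'.2]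
      exact adj_iff_of_col x.2 x'.2 h1
  inter := by
    intro x y x' y' h i j
    have h1 : col x y = col x' y' := congrArg Fin.val h
    rw [ncard_eq_cnt, ncard_eq_cnt]
    exact cnt_eq x.2 y.2 x'.2 y'.2 h1 _ (by have := i.2; have := j.2; omega)

theorem Wc_edge : EdgeUnion Wc Gr := by
  intro x y x' y' h
  have h1 : col x y = col x' y' := congrArg Fin.val h
  show adjB x y = true ↔ adjB x' y' = true
  rw [adj_iff_of_col x.2 x'.2 h1]

/-! ### the coherent closure -/

section closure

variable {J : Type} (W' : CoherentConfiguration (Fin 156) J)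

theorem color_left {x y x' y' : Fin 156} (h : W'.color x y = W'.color x' y') :
    W'.color x x = W'.color x' x' := by
  have h1 := W'.inter x y x' y' h (W'.color x x) (W'.color x y)
  have h2 : 0 < {z | W'.color x z = W'.color x x ∧ W'.color z y = W'.color x y}.ncard :=
    (Set.ncard_pos (Set.toFinite _)).2 ⟨x, rfl, rfl⟩
  rw [h1] at h2
  obtain ⟨z, hz, -⟩ := (Set.ncard_pos (Set.toFinite _)).1 h2
  have h3 := W'.diag x x' z hz.symm
  rw [← hz, ← h3]

theorem color_right {x y x' y' : Fin 156} (h : W'.color x y = W'.color x' y') :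
    W'.color y y = W'.color y' y' := color_left W' (W'.transpose _ _ _ _ h)

theorem valency_le {x x' : Fin 156} (h : W'.color x x = W'.color x' x') (i : J) :
    {z | W'.color x z = i}.ncard ≤ {z | W'.color x' z = i}.ncard := by
  by_cases hne : ∃ z, W'.color x z = i
  · obtain ⟨z₀, hz₀⟩ := hne
    have h1 := W'.inter x x x' x' h i (W'.color z₀ x)
    have h2 : {z | W'.color x z = i} = {z | W'.color x z = i ∧ W'.color z x = W'.color z₀ x} := by
      ext z
      constructor
      · intro hz
        exact ⟨hz, W'.transpose _ _ _ _ (hz.trans hz₀.symm)⟩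
      · exact fun hz => hz.1
    rw [h2, h1]
    exact Set.ncard_le_ncard (fun z hz => hz.1) (Set.toFinite _)
  · have : {z | W'.color x z = i} = ∅ := by
      ext z
      simp only [Set.mem_ofPred_eq, Set.mem_empty_iff_false, iff_false]
      exact fun hz => hne ⟨z, hz⟩
    rw [this, Set.ncard_empty]
    exact Nat.zero_le _

theorem valency_eq {x x' : Fin 156} (h : W'.color x x = W'.color x' x') (i : J) :
    {z | W'.color x z = i}.ncard = {z | W'.color x' z = i}.ncard :=
  le_antisymm (valency_le W' h i) (valency_le W' h.symm i)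

theorem degree_eq (hW : EdgeUnion W' Gr) {x x' : Fin 156} (h : W'.color x x = W'.color x' x') :
    ((Finset.univ : Finset (Fin 156)).filter fun z => Gr.Adj x z).card =
      ((Finset.univ : Finset (Fin 156)).filter fun z => Gr.Adj x' z).card := by
  classical
  obtain ⟨K, hK⟩ : ∃ K : Finset J, K = (Finset.univ : Finset (Fin 156 × Fin 156)).image
    fun p => W'.color p.1 p.2 := ⟨_, rfl⟩
  have hmem : ∀ a b, W'.color a b ∈ K := by
    intro a b
    rw [hK]
    exact Finset.mem_image.2 ⟨(a, b), Finset.mem_univ _, rfl⟩
  rw [Finset.card_eq_sum_card_fiberwise (f := fun z => W'.color x z) (t := K) (fun z _ => hmem _ _),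
    Finset.card_eq_sum_card_fiberwise (f := fun z => W'.color x' z) (t := K) (fun z _ => hmem _ _)]
  refine Finset.sum_congr rfl fun i _ => ?_
  by_cases hi : ∃ a b, Gr.Adj a b ∧ W'.color a b = i
  · obtain ⟨a, b, hab, hi⟩ := hi
    have key : ∀ w : Fin 156, (((Finset.univ : Finset (Fin 156)).filter fun z => Gr.Adj w z).filter
        fun z => W'.color w z = i).card = {z | W'.color w z = i}.ncard := by
      intro w
      rw [← Set.ncard_coe_finset]
      congr 1
      ext z
      simp only [Finset.coe_filter, Finset.mem_filter, Finset.mem_univ, true_and, Set.mem_ofPred_eq]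
      refine ⟨fun hz => hz.2, fun hz => ⟨?_, hz⟩⟩
      exact (hW a b w z (hi.trans hz.symm)).1 hab
    rw [key, key]
    exact valency_eq W' h i
  · have key : ∀ w : Fin 156, (((Finset.univ : Finset (Fin 156)).filter fun z => Gr.Adj w z).filter
        fun z => W'.color w z = i) = ∅ := by
      intro w
      apply Finset.eq_empty_of_forall_notMem
      intro z hz
      rw [Finset.mem_filter, Finset.mem_filter] at hz
      exact hi ⟨w, z, hz.1.2, hz.2⟩
    rw [key, key]

end closure

theorem degree_part (x : Fin 156) :
    ((Finset.univ : Finset (Fin 156)).filter fun z => Gr.Adj x z).card = E x x := by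
  rw [← sq_eq x.2 x.2, Finset.card_filter, ← Fin.sum_univ_eq_sum_range
    (fun z => (if adjB x z then 1 else 0) * (if adjB z x then 1 else 0)) 156]
  refine Finset.sum_congr rfl fun z _ => ?_
  rw [adj_symm z.2 x.2]
  show (if adjB x z = true then 1 else 0) = _
  split_ifs <;> rfl

theorem part_of_degree (x x' : Fin 156) (h : E x x = E x' x') : ((x : ℕ) < 60 ↔ (x' : ℕ) < 60) := by
  unfold E be at h
  rw [adj_irrefl x.2, adj_irrefl x'.2] at h
  by_cases h1 : (x : ℕ) < 60 <;> by_cases h2 : (x' : ℕ) < 60 <;> simp [h1, h2] at h ⊢

theorem Wc_closure : IsCoherentClosure Wc Gr := by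
  refine ⟨Wc_edge, fun J W' hW x y x' y' h => ?_⟩
  have h1 := part_of_degree x x' (by
    rw [← degree_part, ← degree_part]; exact degree_eq W' hW (color_left W' h))
  have h2 := part_of_degree y y' (by
    rw [← degree_part, ← degree_part]; exact degree_eq W' hW (color_right W' h))
  have h3 : (x : ℕ) = y ↔ (x' : ℕ) = y' := by
    constructor
    · intro hxy
      have : x = y := Fin.ext hxy
      subst this
      exact congrArg Fin.val (W'.diag _ _ _ h)
    · intro hxy
      have : x' = y' := Fin.ext hxy
      subst this
      exact congrArg Fin.val (W'.diag _ _ _ h.symm)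
  have h4 : adjB x y = adjB x' y' := by
    rw [Bool.eq_iff_iff]
    exact hW x y x' y' h
  exact Fin.ext (col_of h1 h2 h3 h4)

/-! ### connectedness -/

theorem exists_common (x y : Fin 156) : ∃ z : Fin 156, Gr.Adj x z ∧ Gr.Adj z y := by
  by_contra hno
  push Not at hno
  have h := sq_eq x.2 y.2
  have h0 : ∑ z ∈ Finset.range 156, (if adjB x z then 1 else 0) * (if adjB z y then 1 else 0) = 0 := by
    apply Finset.sum_eq_zero
    intro z hz
    have hz' := Finset.mem_range.1 hz
    by_cases h1 : adjB x z = true
    · have h2 : ¬ adjB z y = true := hno ⟨z, hz'⟩ h1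
      rw [if_neg h2, mul_zero]
    · rw [if_neg h1, zero_mul]
  rw [h0] at h
  unfold E be at h
  split_ifs at h

theorem Gr_connected : Gr.Connected := by
  refine ⟨fun x y => ?_⟩
  obtain ⟨z, h1, h2⟩ := exists_common x y
  exact h1.reachable.trans h2.reachable

/-! ### the type -/

theorem fib (x y : Fin 156) : Wc.color y y = Wc.color x x ↔ ((y : ℕ) < 60 ↔ (x : ℕ) < 60) := by
  constructor
  · intro h
    have h1 : col y y = col x x := congrArg Fin.val h
    have h2 := (col_data y y).1
    have h3 := (col_data x x).1
    rw [← h2, ← h3, h1]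
  · intro h
    refine Fin.ext (col_of h h (by simp) ?_)
    rw [adj_irrefl x.2, adj_irrefl y.2]

theorem Wc_fibres : fibres Wc =
    {{x : Fin 156 | (x : ℕ) < 60}, {x : Fin 156 | ¬ (x : ℕ) < 60}} := by
  ext X
  simp only [fibres, fib, Set.mem_ofPred_eq, Set.mem_insert_iff, Set.mem_singleton_iff]
  constructor
  · rintro ⟨x, rfl⟩
    by_cases hx : (x : ℕ) < 60
    · left; ext y; simp [hx]
    · right; ext y; simp only [Set.mem_ofPred_eq, hx, iff_false]
  · rintro (rfl | rfl)
    · exact ⟨0, by ext y; simp⟩
    · exact ⟨60, by ext y; simp⟩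

theorem rel11 : relCount Wc {x | (x : ℕ) < 60} {x | (x : ℕ) < 60} = 3 := by
  have h : {i | ∃ x ∈ {x : Fin 156 | (x : ℕ) < 60}, ∃ y ∈ {x : Fin 156 | (x : ℕ) < 60},
      Wc.color x y = i} = (({0, 1, 2} : Finset (Fin 10)) : Set (Fin 10)) := by
    ext i
    simp only [Set.mem_ofPred_eq, Finset.coe_insert, Finset.coe_singleton, Set.mem_insert_iff,
      Set.mem_singleton_iff]
    constructor
    · rintro ⟨x, hx, y, hy, rfl⟩
      have : col x y = 0 ∨ col x y = 1 ∨ col x y = 2 := by
        unfold col
        rw [if_pos hx, if_pos hy]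
        split_ifs <;> simp
      rcases this with h | h | h
      · exact Or.inl (Fin.ext h)
      · exact Or.inr (Or.inl (Fin.ext h))
      · exact Or.inr (Or.inr (Fin.ext h))
    · rintro (rfl | rfl | rfl)
      · exact ⟨0, by decide, 0, by decide, Fin.ext (by show col 0 0 = 0; decide +kernel)⟩
      · exact ⟨0, by decide, 4, by decide, Fin.ext (by show col 0 4 = 1; decide +kernel)⟩
      · exact ⟨0, by decide, 1, by decide, Fin.ext (by show col 0 1 = 2; decide +kernel)⟩
  rw [relCount, h, Set.ncard_coe_finset]
  rfl

theorem rel12 : relCount Wc {x | (x : ℕ) < 60} {x | ¬ (x : ℕ) < 60} = 2 := by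
  have h : {i | ∃ x ∈ {x : Fin 156 | (x : ℕ) < 60}, ∃ y ∈ {x : Fin 156 | ¬ (x : ℕ) < 60},
      Wc.color x y = i} = (({3, 4} : Finset (Fin 10)) : Set (Fin 10)) := by
    ext i
    simp only [Set.mem_ofPred_eq, Finset.coe_insert, Finset.coe_singleton, Set.mem_insert_iff,
      Set.mem_singleton_iff]
    constructor
    · rintro ⟨x, hx, y, hy, rfl⟩
      have : col x y = 3 ∨ col x y = 4 := by
        unfold col
        rw [if_pos hx, if_neg hy]
        split_ifs <;> simp
      rcases this with h | h
      · exact Or.inl (Fin.ext h)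
      · exact Or.inr (Fin.ext h)
    · rintro (rfl | rfl)
      · exact ⟨0, by decide, 60, by decide, Fin.ext (by show col 0 60 = 3; decide +kernel)⟩
      · exact ⟨0, by decide, 72, by decide, Fin.ext (by show col 0 72 = 4; decide +kernel)⟩
  rw [relCount, h, Set.ncard_coe_finset]
  rfl

theorem rel22 : relCount Wc {x | ¬ (x : ℕ) < 60} {x | ¬ (x : ℕ) < 60} = 3 := by
  have h : {i | ∃ x ∈ {x : Fin 156 | ¬ (x : ℕ) < 60}, ∃ y ∈ {x : Fin 156 | ¬ (x : ℕ) < 60},
      Wc.color x y = i} = (({7, 8, 9} : Finset (Fin 10)) : Set (Fin 10)) := by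
    ext i
    simp only [Set.mem_ofPred_eq, Finset.coe_insert, Finset.coe_singleton, Set.mem_insert_iff,
      Set.mem_singleton_iff]
    constructor
    · rintro ⟨x, hx, y, hy, rfl⟩
      have : col x y = 7 ∨ col x y = 8 ∨ col x y = 9 := by
        unfold col
        rw [if_neg hx, if_neg hy]
        split_ifs <;> simp
      rcases this with h | h | h
      · exact Or.inl (Fin.ext h)
      · exact Or.inr (Or.inl (Fin.ext h))
      · exact Or.inr (Or.inr (Fin.ext h))
    · rintro (rfl | rfl | rfl)
      · exact ⟨60, by decide, 60, by decide, Fin.ext (by show col 60 60 = 7; decide +kernel)⟩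
      · exact ⟨60, by decide, 61, by decide, Fin.ext (by show col 60 61 = 8; decide +kernel)⟩
      · exact ⟨60, by decide, 66, by decide, Fin.ext (by show col 60 66 = 9; decide +kernel)⟩
  rw [relCount, h, Set.ncard_coe_finset]
  rfl

theorem Wc_type : IsStronglyRegularDesign Wc := by
  refine ⟨{x | (x : ℕ) < 60}, {x | ¬ (x : ℕ) < 60}, ?_, Wc_fibres, rel11, rel12, rel22⟩
  intro h
  have h1 : (0 : Fin 156) ∈ {x : Fin 156 | (x : ℕ) < 60} := by decide
  rw [h] at h1
  exact h1 (by decide)

/-! ### the eigenvalues -/

/-- the eigenvalues of the adjacency matrix of a graph -/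
def eigenvalues {V : Type} [Fintype V] [DecidableEq V] (G : SimpleGraph V) [DecidableRel G.Adj] :
    Set ℝ := {μ | ∃ v : V → ℝ, v ≠ 0 ∧ (G.adjMatrix ℝ).mulVec v = μ • v}

theorem mulVec_eq (v : Fin 156 → ℝ) (x : Fin 156) :
    (Gr.adjMatrix ℝ).mulVec v x = ∑ z : Fin 156, if adjB x z = true then v z else 0 := by
  rw [Matrix.mulVec, dotProduct]
  refine Finset.sum_congr rfl fun z _ => ?_
  rw [SimpleGraph.adjMatrix_apply]
  show (if adjB x z = true then (1 : ℝ) else 0) * v z = _
  split_ifs <;> simp

theorem eig_of (f : ℕ → ℤ) (m : ℤ) (h : eigChk f m = true) (x : Fin 156) :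
    (Gr.adjMatrix ℝ).mulVec (fun z => (f z : ℝ)) x = m * (f x : ℝ) := by
  have h1 := of_decide_eq_true (allN_spec h x x.2)
  rw [sumZ_eq, ← Fin.sum_univ_eq_sum_range (fun z => if adjB x z then f z else 0) 156] at h1
  rw [mulVec_eq]
  have h2 := congrArg (fun t : ℤ => (t : ℝ)) h1
  push_cast at h2
  rw [← h2]

theorem eig_mem (f : ℕ → ℤ) (m : ℤ) (h : eigChk f m = true) (hf : f 0 ≠ 0) :
    (m : ℝ) ∈ eigenvalues Gr := by
  refine ⟨fun z => (f z : ℝ), ?_, ?_⟩
  · intro h0
    have := congrFun h0 0
    simp only [Pi.zero_apply] at this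
    exact hf (by exact_mod_cast this)
  · ext x
    rw [eig_of f m h x]
    rfl

theorem sq_real (v : Fin 156 → ℝ) (x : Fin 156) :
    (Gr.adjMatrix ℝ).mulVec ((Gr.adjMatrix ℝ).mulVec v) x =
      4 * (Gr.adjMatrix ℝ).mulVec v x + 32 * v x +
        18 * (be x : ℝ) * ∑ y : Fin 156, (be y : ℝ) * v y := by
  rw [mulVec_eq, mulVec_eq]
  have h1 : ∀ z : Fin 156, (if adjB x z = true then (Gr.adjMatrix ℝ).mulVec v z else 0) =
      ∑ y : Fin 156, (((if adjB x z then 1 else 0) * (if adjB z y then 1 else 0) : ℕ) : ℝ) * v y := by
    intro z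
    rw [mulVec_eq]
    by_cases h : adjB x z = true
    · rw [if_pos h]
      refine Finset.sum_congr rfl fun y _ => ?_
      rw [if_pos h]
      split_ifs <;> simp
    · rw [if_neg h]
      symm
      apply Finset.sum_eq_zero
      intro y _
      rw [if_neg h]
      simp
  rw [Finset.sum_congr rfl fun z _ => h1 z, Finset.sum_comm, Finset.mul_sum, Finset.mul_sum]
  have h2 : ∀ y : Fin 156, ∑ z : Fin 156,
      (((if adjB x z then 1 else 0) * (if adjB z y then 1 else 0) : ℕ) : ℝ) * v y =
        (E x y : ℝ) * v y := by
    intro y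
    rw [← Finset.sum_mul, ← sq_eq x.2 y.2, ← Fin.sum_univ_eq_sum_range
      (fun z => (if adjB x z then 1 else 0) * (if adjB z y then 1 else 0)) 156]
    push_cast
    rfl
  rw [Finset.sum_congr rfl fun y _ => h2 y]
  have h3 : (32 : ℝ) * v x = ∑ y : Fin 156, if x = y then 32 * v y else 0 := by
    rw [Finset.sum_ite_eq]
    simp
  rw [h3, ← Finset.sum_add_distrib, ← Finset.sum_add_distrib]
  refine Finset.sum_congr rfl fun y _ => ?_
  unfold E
  push_cast
  have h4 : ((x : ℕ) = y) ↔ x = y := Fin.val_inj
  by_cases hb : x = y
  · subst hb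
    rw [adj_irrefl x.2]
    simp
    ring
  · have hb' : ¬ ((x : ℕ) = y) := fun h => hb (h4.1 h)
    by_cases ha : adjB x y = true
    · simp [ha, hb, hb']
      ring
    · simp [ha, hb, hb']
      ring

theorem be_eig (x : Fin 156) :
    (Gr.adjMatrix ℝ).mulVec (fun z => (be z : ℝ)) x = 80 * (be x : ℝ) := by
  have h := eig_of f80 80 e80 x
  have h1 : ∀ z : Fin 156, ((f80 z : ℤ) : ℝ) = (be z : ℝ) := by
    intro z
    unfold f80 be
    split_ifs <;> simp
  simp only [h1] at h
  rw [h]
  norm_num

theorem eig_cases (μ : ℝ) (h : μ ∈ eigenvalues Gr) : μ = 80 ∨ μ = 8 ∨ μ = -4 := by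
  obtain ⟨v, hv, hμ⟩ := h
  obtain ⟨s, hs⟩ : ∃ s : ℝ, s = ∑ y : Fin 156, (be y : ℝ) * v y := ⟨_, rfl⟩
  by_cases h0 : s = 0
  · right
    obtain ⟨x, hx⟩ : ∃ x, v x ≠ 0 := by
      by_contra hno
      push Not at hno
      exact hv (funext hno)
    have h1 := sq_real v x
    rw [← hs, h0, mul_zero, add_zero, hμ, Matrix.mulVec_smul, hμ] at h1
    simp only [Pi.smul_apply, smul_eq_mul] at h1
    have h2 : (μ - 8) * (μ + 4) * v x = 0 := by linear_combination h1
    rcases mul_eq_zero.1 h2 with h3 | h3
    · rcases mul_eq_zero.1 h3 with h4 | h4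
      · left; linarith
      · right; linarith
    · exact absurd h3 hx
  · left
    have h1 : μ * s = 80 * s := by
      have h2 : dotProduct (fun z : Fin 156 => (be z : ℝ)) ((Gr.adjMatrix ℝ).mulVec v) = μ * s := by
        rw [hμ, dotProduct_smul, smul_eq_mul, hs]
        rfl
      have h3 : dotProduct (fun z : Fin 156 => (be z : ℝ)) ((Gr.adjMatrix ℝ).mulVec v) = 80 * s := by
        rw [Matrix.dotProduct_mulVec, ← Matrix.mulVec_transpose, SimpleGraph.transpose_adjMatrix]
        rw [show (Gr.adjMatrix ℝ).mulVec (fun z : Fin 156 => (be z : ℝ)) =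
          fun x : Fin 156 => 80 * (be x : ℝ) from funext be_eig, hs, dotProduct, Finset.mul_sum]
        refine Finset.sum_congr rfl fun y _ => ?_
        ring
      rw [← h2, h3]
    exact mul_right_cancel₀ h0 h1

theorem eig_set : eigenvalues Gr = {80, 8, -4} := by
  ext μ
  simp only [Set.mem_insert_iff, Set.mem_singleton_iff]
  constructor
  · exact eig_cases μ
  · rintro (rfl | rfl | rfl)
    · have := eig_mem f80 80 e80 (by decide)
      exact_mod_cast this
    · have := eig_mem f8 8 e8 (by decide)
      exact_mod_cast this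
    · have := eig_mem f4 (-4) e4 (by decide)
      exact_mod_cast this

theorem eig_ncard : (eigenvalues Gr).ncard = 3 := by
  rw [eig_set]
  have h : ({80, 8, -4} : Set ℝ) = (({80, 8, -4} : Finset ℝ) : Set ℝ) := by simp
  rw [h, Set.ncard_coe_finset, Finset.card_eq_three]
  exact ⟨80, 8, -4, by norm_num, by norm_num, by norm_num, rfl⟩

/-- There is a connected graph whose adjacency matrix has exactly three distinct eigenvalues and whose
coherent closure is a strongly regular design. -/
theorem result : ∃ (V : Type) (_ : Fintype V) (_ : DecidableEq V) (G : SimpleGraph V)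
    (_ : DecidableRel G.Adj) (I : Type) (W : CoherentConfiguration V I),
    G.Connected ∧ (eigenvalues G).ncard = 3 ∧ IsCoherentClosure W G ∧ IsStronglyRegularDesign W :=
  ⟨Fin 156, inferInstance, inferInstance, Gr, inferInstance, Fin 10, Wc, Gr_connected, eig_ncard,
    Wc_closure, Wc_type⟩

end Pool.Agent.Results.MP_5e375b_co.ThreeEigenvaluesSRD
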